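import Pool.Agent.Helper98.DE.St
import Pool.Agent.Helper12.MA.Lib

/-!
# Project DE (MP_d63854_co), module CRI: the consequences of Critical
-/

set_option autoImplicit false

namespace Pool.Agent.Helper86.DE

open Pool.Agent.Helper98.DE
open Pool.Agent.Helper51.AJ (IsMinor Planar Apex ExMinor Con Tch)
open Pool.Agent.Helper12.NK (rst Kc cnt)
open Pool.Agent.Helper12.MA (dl Srv)

private theorem del_eq {V : Type} (G : SimpleGraph V) (x y : V) :
    G.deleteEdges {s(x, y)} = dl G x y := by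
  ext a b
  rw [SimpleGraph.deleteEdges_adj, Set.mem_singleton_iff, Sym2.eq_iff, not_or]
  rfl

private theorem rst_end {V : Type} (G : SimpleGraph V) (x y z : V) (hz : z = x ∨ z = y) :
    rst (dl G x y) {z}ᶜ = rst G {z}ᶜ := by
  ext a b
  constructor
  · rintro ⟨h1, h2, h3⟩
    exact ⟨h1.1, h2, h3⟩
  · rintro ⟨h1, h2, h3⟩
    refine ⟨⟨h1, ?_, ?_⟩, h2, h3⟩
    · rintro ⟨rfl, rfl⟩
      rcases hz with rfl | rfl
      · exact h2 rfl
      · exact h3 rfl
    · rintro ⟨rfl, rfl⟩
      rcases hz with rfl | rfl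
      · exact h3 rfl
      · exact h2 rfl

/-- MODULE CRI. -/
theorem hCRI : StCRI := by
  intro V _ G hC
  obtain ⟨hA, hE⟩ := hC
  have h1 : ∀ x, ¬ Planar (rst G {x}ᶜ) := by
    intro x hx
    apply hA
    right
    exact ⟨x, (Pool.Agent.Helper12.MA.nKCA V G {x}ᶜ).2.2.2.2.2.2.1.2 hx⟩
  have h6 : 6 ≤ Nat.card V := by
    by_contra hlt
    obtain ⟨e⟩ := Pool.Agent.Helper12.NK.small G hA (by omega)
    have h2 := Nat.card_congr e.toEquiv
    rw [Nat.card_eq_fintype_card, Fintype.card_fin] at h2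
    omega
  refine ⟨h1, h6, fun x y hxy => ?_⟩
  have h3 := hE x y hxy
  rw [del_eq] at h3
  rcases h3 with h4 | ⟨s, hs⟩
  · -- any other vertex
    have h5 : ∃ s : V, s ∉ ({x, y} : Set V) := by
      by_contra hno
      push Not at hno
      have h7 : ({x, y} : Set V) = Set.univ := Set.eq_univ_of_forall hno
      have h8 : ({x, y} : Set V).ncard ≤ 2 := by
        have := Set.ncard_insert_le x ({y} : Set V)
        rw [Set.ncard_singleton] at this
        exact this
      rw [h7, Set.ncard_univ] at h8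
      omega
    obtain ⟨s, hs⟩ := h5
    rw [Set.mem_insert_iff, Set.mem_singleton_iff, not_or] at hs
    refine ⟨s, hs.1, hs.2, ?_⟩
    exact (Pool.Agent.Helper12.MA.nKCA V (dl G x y) {s}ᶜ).2.2.2.2.2.1 _ _
      (fun a b h => h.1) h4
  · have h5 : Planar (rst (dl G x y) {s}ᶜ) :=
      (Pool.Agent.Helper12.MA.nKCA V (dl G x y) {s}ᶜ).2.2.2.2.2.2.1.1 hs
    refine ⟨s, ?_, ?_, h5⟩
    · intro h
      rw [rst_end G x y s (Or.inl h)] at h5
      exact h1 s h5
    · intro h
      rw [rst_end G x y s (Or.inr h)] at h5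
      exact h1 s h5

end Pool.Agent.Helper86.DE
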